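import Pool.Agent.H87.SN.Targets

/-! The inner cutoff (row INN of the board snk, helper10). -/

set_option autoImplicit false

namespace Pool.Agent.H10.SN

open Pool.Agent.H87.SN
open MeasureTheory Metric Set Filter Topology
open scoped ContDiff RealInnerProductSpace

/-- the profile of the cutoff -/
noncomputable def hh (τ : ℝ) : ℝ := Real.smoothTransition ((τ - 81 / 64) / (4 - 81 / 64))

theorem hh_cd : ContDiff ℝ ∞ hh := by
  unfold hh
  exact Real.smoothTransition.contDiff.comp ((contDiff_id.sub contDiff_const).div_const _)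

theorem hh_zero {τ : ℝ} (h : τ ≤ 81 / 64) : hh τ = 0 := by
  unfold hh
  exact Real.smoothTransition.zero_of_nonpos (div_nonpos_of_nonpos_of_nonneg (by linarith)
    (by norm_num))

theorem hh_one {τ : ℝ} (h : 4 ≤ τ) : hh τ = 1 := by
  unfold hh
  refine Real.smoothTransition.one_of_one_le ?_
  rw [le_div_iff₀ (by norm_num)]
  linarith

/-- the last `d` coordinates as a linear map -/
noncomputable def zpL (d : ℕ) : E (d + 2) →L[ℝ] E d := LinearMap.toContinuousLinearMap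
  { toFun := zp
    map_add' := by
      intro x y; ext i; simp [zp]
    map_smul' := by
      intro c x; ext i; simp [zp] }

theorem zpL_apply {d : ℕ} (x : E (d + 2)) : zpL d x = zp x := rfl

theorem norm_split' {d : ℕ} (x : E (d + 2)) : ‖x‖ ^ 2 = (x 0 ^ 2 + x 1 ^ 2) + ‖zp x‖ ^ 2 := by
  rw [EuclideanSpace.norm_sq_eq, EuclideanSpace.norm_sq_eq, Fin.sum_univ_succ,
    Fin.sum_univ_succ]
  simp only [Real.norm_eq_abs, sq_abs]
  show x 0 ^ 2 + (x 1 ^ 2 + ∑ i : Fin d, x i.succ.succ ^ 2) =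
    x 0 ^ 2 + x 1 ^ 2 + ∑ i : Fin d, x i.succ.succ ^ 2
  rw [← add_assoc]

theorem rho_sq' {d : ℕ} (x : E (d + 2)) : rho x ^ 2 = x 0 ^ 2 + x 1 ^ 2 := by
  unfold rho
  rw [Real.sq_sqrt (by positivity)]

theorem zp_norm_le {d : ℕ} (x : E (d + 2)) : ‖zp x‖ ≤ ‖x‖ := by
  refine (sq_le_sq₀ (norm_nonneg _) (norm_nonneg _)).1 ?_
  rw [norm_split' x]
  nlinarith [sq_nonneg (x 0), sq_nonneg (x 1)]

theorem inner2_le {d : ℕ} (x v : E (d + 2)) : |x 0 * v 0 + x 1 * v 1| ≤ rho x * ‖v‖ := by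
  refine abs_le_of_sq_le_sq ?_ (mul_nonneg (Real.sqrt_nonneg _) (norm_nonneg _))
  rw [mul_pow, rho_sq', norm_split' v]
  nlinarith [sq_nonneg (x 0 * v 1 - x 1 * v 0), sq_nonneg (x 0), sq_nonneg (x 1),
    sq_nonneg ‖zp v‖, mul_nonneg (add_nonneg (sq_nonneg (x 0)) (sq_nonneg (x 1)))
      (sq_nonneg ‖zp v‖)]

/-- the variable of the cutoff -/
noncomputable def tau {d : ℕ} (r : E d → ℝ) (x : E (d + 2)) : ℝ :=
  (x 0 ^ 2 + x 1 ^ 2) / (r (zp x)) ^ 2

theorem tau_cd {d : ℕ} {r : E d → ℝ} (hr : ContDiff ℝ 1 r) (hr0 : ∀ z, 0 < r z) :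
    ContDiff ℝ 1 (tau (d := d) r) := by
  have h0 : ContDiff ℝ 1 (fun x : E (d + 2) => x 0) :=
    (EuclideanSpace.proj (𝕜 := ℝ) (0 : Fin (d + 2))).contDiff
  have h1 : ContDiff ℝ 1 (fun x : E (d + 2) => x 1) :=
    (EuclideanSpace.proj (𝕜 := ℝ) (1 : Fin (d + 2))).contDiff
  have h2 : ContDiff ℝ 1 (fun x : E (d + 2) => r (zp x)) := hr.comp (zpL d).contDiff
  exact ((h0.pow 2).add (h1.pow 2)).div (h2.pow 2) fun x => (pow_pos (hr0 _) 2).ne'

/-- the derivative of `tau` along a line -/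
theorem tau_deriv {d : ℕ} {r : E d → ℝ} (hr : ContDiff ℝ 1 r) (hr0 : ∀ z, 0 < r z)
    (x v : E (d + 2)) :
    HasDerivAt (fun t : ℝ => tau r (x + t • v))
      ((2 * (x 0 * v 0 + x 1 * v 1) * (r (zp x)) ^ 2 -
        (x 0 ^ 2 + x 1 ^ 2) * (2 * r (zp x) * fderiv ℝ r (zp x) (zp v))) /
        ((r (zp x)) ^ 2) ^ 2) 0 := by
  have hc : ∀ i : Fin (d + 2), HasDerivAt (fun t : ℝ => (x + t • v) i) (v i) 0 := by
    intro i
    have h1 : HasDerivAt (fun t : ℝ => x i + t * v i) (1 * v i) 0 :=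
      ((hasDerivAt_id (0 : ℝ)).mul_const (v i)).const_add (x i)
    rw [one_mul] at h1
    exact h1
  have hN : HasDerivAt (fun t : ℝ => ((x + t • v) 0) ^ 2 + ((x + t • v) 1) ^ 2)
      (2 * (x 0 * v 0 + x 1 * v 1)) 0 := by
    have h1 := ((hc 0).pow 2).add ((hc 1).pow 2)
    refine h1.congr_deriv ?_
    simp
    ring
  have hz : HasDerivAt (fun t : ℝ => zp (x + t • v)) (zp v) 0 := by
    have h1 : HasDerivAt (fun t : ℝ => zp x + t • zp v) ((1 : ℝ) • zp v) 0 :=
      ((hasDerivAt_id (0 : ℝ)).smul_const (zp v)).const_add (zp x)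
    rw [one_smul] at h1
    have h2 : (fun t : ℝ => zp (x + t • v)) = fun t : ℝ => zp x + t • zp v := by
      funext t
      rw [← zpL_apply, map_add, map_smul, zpL_apply, zpL_apply]
    rw [h2]
    exact h1
  have hx0 : zp (x + (0 : ℝ) • v) = zp x := by rw [zero_smul, add_zero]
  have hq : HasDerivAt (fun t : ℝ => r (zp (x + t • v))) (fderiv ℝ r (zp x) (zp v)) 0 := by
    have h1 : HasFDerivAt r (fderiv ℝ r (zp x)) (zp (x + (0 : ℝ) • v)) := by
      rw [hx0]
      exact (hr.differentiable (by norm_num) (zp x)).hasFDerivAt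
    exact h1.comp_hasDerivAt (0 : ℝ) hz
  have hq2 : HasDerivAt (fun t : ℝ => (r (zp (x + t • v))) ^ 2)
      (2 * r (zp x) * fderiv ℝ r (zp x) (zp v)) 0 := by
    refine (hq.pow 2).congr_deriv ?_
    rw [hx0]
    simp
  have h3 := hN.div hq2 (pow_pos (hr0 _) 2).ne'
  refine h3.congr_deriv ?_
  rw [hx0]
  have h4 : (x + (0 : ℝ) • v) = x := by rw [zero_smul, add_zero]
  rw [h4]

/-- the bound of the derivative of `tau` in the layer -/
theorem tau_bound {d : ℕ} {r : E d → ℝ} {M : ℝ} (hr0 : ∀ z, 0 < r z)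
    (hM : ∀ z, ‖fderiv ℝ r z‖ ≤ M) (x v : E (d + 2)) (hv : ‖v‖ ≤ 1) (hx : rho x ≤ 2 * r (zp x)) :
    rho x * |(2 * (x 0 * v 0 + x 1 * v 1) * (r (zp x)) ^ 2 -
        (x 0 ^ 2 + x 1 ^ 2) * (2 * r (zp x) * fderiv ℝ r (zp x) (zp v))) /
        ((r (zp x)) ^ 2) ^ 2| ≤ 8 + 16 * M := by
  have hq := hr0 (zp x)
  have hρ : 0 ≤ rho x := Real.sqrt_nonneg _
  have hM0 : 0 ≤ M := (norm_nonneg _).trans (hM 0)
  have h1 : |x 0 * v 0 + x 1 * v 1| ≤ rho x := by
    refine (inner2_le x v).trans ?_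
    nlinarith
  have h2 : |fderiv ℝ r (zp x) (zp v)| ≤ M := by
    have h3 := (fderiv ℝ r (zp x)).le_opNorm (zp v)
    rw [Real.norm_eq_abs] at h3
    have h4 := zp_norm_le v
    have h5 := hM (zp x)
    have h6 := norm_nonneg (zp v)
    have h7 := norm_nonneg (fderiv ℝ r (zp x))
    calc _ ≤ _ := h3
      _ ≤ ‖fderiv ℝ r (zp x)‖ * 1 := mul_le_mul_of_nonneg_left (h4.trans hv) h7
      _ ≤ M := by rw [mul_one]; exact h5
  set q := r (zp x) with hqdef
  set A := x 0 * v 0 + x 1 * v 1 with hA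
  set D := fderiv ℝ r (zp x) (zp v) with hD
  rw [← rho_sq']
  rw [abs_div, abs_of_pos (by positivity : (0 : ℝ) < (q ^ 2) ^ 2), ← mul_div_assoc,
    div_le_iff₀ (by positivity)]
  have h3 : |2 * A * q ^ 2 - rho x ^ 2 * (2 * q * D)| ≤ 2 * rho x * q ^ 2 +
      rho x ^ 2 * (2 * q * M) := by
    refine (abs_sub _ _).trans ?_
    have e1 : |2 * A * q ^ 2| = 2 * |A| * q ^ 2 := by
      rw [abs_mul, abs_mul, abs_of_pos (by norm_num : (0 : ℝ) < 2), abs_of_pos (by positivity : 0 < q ^ 2)]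
    have e2 : |rho x ^ 2 * (2 * q * D)| = rho x ^ 2 * (2 * q * |D|) := by
      rw [abs_mul, abs_mul, abs_of_nonneg (by positivity : 0 ≤ rho x ^ 2),
        abs_of_pos (by positivity : 0 < 2 * q)]
    rw [e1, e2]
    have e3 : 2 * |A| * q ^ 2 ≤ 2 * rho x * q ^ 2 := by
      have : 0 ≤ q ^ 2 := by positivity
      nlinarith
    have e4 : rho x ^ 2 * (2 * q * |D|) ≤ rho x ^ 2 * (2 * q * M) := by gcongr
    linarith
  have h4 : rho x * |2 * A * q ^ 2 - rho x ^ 2 * (2 * q * D)| ≤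
      2 * rho x ^ 2 * q ^ 2 + rho x ^ 3 * (2 * q * M) := by
    calc _ ≤ rho x * (2 * rho x * q ^ 2 + rho x ^ 2 * (2 * q * M)) :=
          mul_le_mul_of_nonneg_left h3 hρ
      _ = _ := by ring
  have h5 : rho x ^ 2 ≤ (2 * q) ^ 2 := pow_le_pow_left₀ hρ hx 2
  have h6 : rho x ^ 3 ≤ (2 * q) ^ 3 := pow_le_pow_left₀ hρ hx 3
  have h7 : 2 * rho x ^ 2 * q ^ 2 ≤ 2 * (2 * q) ^ 2 * q ^ 2 := by gcongr
  have h8 : rho x ^ 3 * (2 * q * M) ≤ (2 * q) ^ 3 * (2 * q * M) := by gcongr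
  calc _ ≤ _ := h4
    _ ≤ 2 * (2 * q) ^ 2 * q ^ 2 + (2 * q) ^ 3 * (2 * q * M) := by linarith
    _ = (8 + 16 * M) * (q ^ 2) ^ 2 := by ring

theorem norm_bv' {n : ℕ} (i : Fin n) : ‖(bv i : E n)‖ ≤ 1 := by
  unfold bv
  simp

/-- INN -/
theorem pf_INN (hROT : T_ROT) : T_INN := by
  intro d M
  have hd1 : Continuous (deriv hh) := hh_cd.continuous_deriv (by norm_num)
  obtain ⟨B, hB⟩ := (isCompact_Icc (a := (0 : ℝ)) (b := 4)).exists_bound_of_continuousOn
    hd1.continuousOn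
  have hB0 : 0 ≤ B := (norm_nonneg _).trans (hB 0 (by norm_num))
  refine ⟨((d + 2 : ℕ) : ℝ) * (B * (8 + 16 * |M|)) ^ 2, by positivity, ?_⟩
  intro r hr hr0 hM
  have hM' : ∀ z, ‖fderiv ℝ r z‖ ≤ |M| := fun z => (hM z).trans (le_abs_self M)
  have hcd : ContDiff ℝ 1 (fun x : E (d + 2) => hh (tau r x)) :=
    (hh_cd.of_le (by norm_num)).comp (tau_cd hr hr0)
  have hgz : ∀ x : E (d + 2), 2 * r (zp x) < rho x → gsq (fun x : E (d + 2) => hh (tau r x)) x = 0 := by
    intro x hx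
    have h1 : ∀ᶠ y in 𝓝 x, hh (tau r y) = 1 := by
      have h2 : ∀ᶠ y in 𝓝 x, 4 < tau r y := by
        have h3 : 4 < tau r x := by
          unfold tau
          rw [lt_div_iff₀ (pow_pos (hr0 _) 2), ← rho_sq']
          have h4 := hr0 (zp x)
          nlinarith
        exact (tau_cd hr hr0).continuous.continuousAt.eventually (lt_mem_nhds h3)
      filter_upwards [h2] with y hy
      exact hh_one hy.le
    have h2 : fderiv ℝ (fun x : E (d + 2) => hh (tau r x)) x = 0 := by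
      have h3 : (fun x : E (d + 2) => hh (tau r x)) =ᶠ[𝓝 x] fun _ => (1 : ℝ) := h1
      rw [h3.fderiv_eq]
      exact fderiv_const_apply 1
    unfold gsq nsq
    rw [h2]
    simp
  refine ⟨fun x => hh (tau r x), hcd, ?_, ?_, ?_, ?_, ?_, hgz⟩
  · intro x
    exact ⟨Real.smoothTransition.nonneg _, Real.smoothTransition.le_one _⟩
  · intro θ x
    have h1 : tau r (rot θ x) = tau r x := by
      unfold tau
      rw [← rho_sq', ← rho_sq', (hROT d).rho, (hROT d).zp]
    simp only [h1]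
  · intro x hx
    refine hh_zero ?_
    unfold tau
    rw [div_le_iff₀ (pow_pos (hr0 _) 2), ← rho_sq']
    have h1 : 0 ≤ rho x := Real.sqrt_nonneg _
    have h2 := pow_le_pow_left₀ h1 hx 2
    refine h2.trans (le_of_eq ?_)
    ring
  · intro x hx
    refine hh_one ?_
    unfold tau
    rw [le_div_iff₀ (pow_pos (hr0 _) 2), ← rho_sq']
    have h1 : 0 ≤ 2 * r (zp x) := by have := hr0 (zp x); linarith
    have h2 := pow_le_pow_left₀ h1 hx 2
    refine le_trans (le_of_eq ?_) h2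
    ring
  · intro x
    rcases lt_or_ge (2 * r (zp x)) (rho x) with hx | hx
    · rw [hgz x hx, mul_zero]
      positivity
    · have hρ : 0 ≤ rho x := Real.sqrt_nonneg _
      have key : ∀ i : Fin (d + 2), rho x ^ 2 * ‖fderiv ℝ (fun x : E (d + 2) => hh (tau r x)) x (bv i)‖ ^ 2 ≤
          (B * (8 + 16 * |M|)) ^ 2 := by
        intro i
        have h1 := tau_deriv hr hr0 x (bv i)
        have hx0 : x + (0 : ℝ) • (bv i : E (d + 2)) = x := by rw [zero_smul, add_zero]
        have h2 : HasDerivAt hh (deriv hh (tau r x)) (tau r (x + (0 : ℝ) • bv i)) := by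
          rw [hx0]
          exact (hh_cd.differentiable (by norm_num) _).hasDerivAt
        have h3 := h2.comp (0 : ℝ) h1
        have h4 : HasDerivAt (fun t : ℝ => x + t • (bv i : E (d + 2))) (bv i) 0 := by
          have h5 : HasDerivAt (fun t : ℝ => x + t • (bv i : E (d + 2))) ((1 : ℝ) • bv i) 0 :=
            ((hasDerivAt_id (0 : ℝ)).smul_const (bv i : E (d + 2))).const_add x
          rwa [one_smul] at h5
        have h5 : HasFDerivAt (fun x : E (d + 2) => hh (tau r x))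
            (fderiv ℝ (fun x : E (d + 2) => hh (tau r x)) x) (x + (0 : ℝ) • bv i) := by
          rw [hx0]
          exact (hcd.differentiable (by norm_num) x).hasFDerivAt
        have h6 := h5.comp_hasDerivAt (0 : ℝ) h4
        have h7 := h6.unique h3
        rw [h7, norm_mul, ← mul_pow]
        have h8 : |deriv hh (tau r x)| ≤ B := by
          have h9 : tau r x ∈ Icc (0 : ℝ) 4 := by
            constructor
            · unfold tau
              positivity
            · unfold tau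
              rw [div_le_iff₀ (pow_pos (hr0 _) 2), ← rho_sq']
              have h10 := pow_le_pow_left₀ hρ hx 2
              refine h10.trans (le_of_eq ?_)
              ring
          exact hB _ h9
        have h9 := tau_bound hr0 hM' x (bv i) (norm_bv' i) hx
        refine pow_le_pow_left₀ (by positivity) ?_ 2
        rw [Real.norm_eq_abs, Real.norm_eq_abs]
        calc _ = |deriv hh (tau r x)| * (rho x * _) := by ring
          _ ≤ B * (8 + 16 * |M|) := mul_le_mul h8 h9 (by positivity) hB0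
      unfold gsq nsq
      rw [Finset.mul_sum]
      refine (Finset.sum_le_sum fun i _ => key i).trans (le_of_eq ?_)
      rw [Finset.sum_const, Finset.card_univ, Fintype.card_fin, nsmul_eq_mul]

end Pool.Agent.H10.SN
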