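import Pool.Agent.H87.SN.Targets

/-! From profiles to weights (row PRW of the board snk, helper10). -/

set_option autoImplicit false

namespace Pool.Agent.H10.SN

open Pool.Agent.H87.SN
open MeasureTheory Metric Set Filter Topology
open scoped ContDiff RealInnerProductSpace

theorem norm_split {d : ℕ} (x : E (d + 2)) : ‖x‖ ^ 2 = rho x ^ 2 + ‖zp x‖ ^ 2 := by
  have h1 : rho x ^ 2 = x 0 ^ 2 + x 1 ^ 2 := by
    unfold rho
    rw [Real.sq_sqrt (by positivity)]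
  rw [h1, EuclideanSpace.norm_sq_eq, EuclideanSpace.norm_sq_eq, Fin.sum_univ_succ,
    Fin.sum_univ_succ]
  simp only [Real.norm_eq_abs, sq_abs]
  show x 0 ^ 2 + (x 1 ^ 2 + ∑ i : Fin d, x i.succ.succ ^ 2) =
    x 0 ^ 2 + x 1 ^ 2 + ∑ i : Fin d, x i.succ.succ ^ 2
  rw [← add_assoc]

theorem rho_nonneg {d : ℕ} (x : E (d + 2)) : 0 ≤ rho x := Real.sqrt_nonneg _

theorem rho_le {d : ℕ} {x : E (d + 2)} (hx : x ∈ ball (0 : E (d + 2)) 2) : rho x ≤ 2 := by
  have h1 := norm_split x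
  rw [mem_ball_zero_iff] at hx
  have h2 : rho x ^ 2 ≤ 2 ^ 2 := by
    have h3 : ‖x‖ ^ 2 ≤ 2 ^ 2 := pow_le_pow_left₀ (norm_nonneg _) hx.le 2
    nlinarith [sq_nonneg ‖zp x‖]
  exact (sq_le_sq₀ (rho_nonneg x) (by norm_num)).1 h2

theorem zp_le {d : ℕ} {x : E (d + 2)} (hx : x ∈ ball (0 : E (d + 2)) 2) : ‖zp x‖ ≤ 2 := by
  have h1 := norm_split x
  rw [mem_ball_zero_iff] at hx
  have h2 : ‖zp x‖ ^ 2 ≤ 2 ^ 2 := by
    have h3 : ‖x‖ ^ 2 ≤ 2 ^ 2 := pow_le_pow_left₀ (norm_nonneg _) hx.le 2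
    nlinarith [sq_nonneg (rho x)]
  exact (sq_le_sq₀ (norm_nonneg _) (by norm_num)).1 h2

/-- growth of `W` in the first variable -/
theorem growth {d : ℕ} (hGRW : T_GRW) {r : E d → ℝ} {C₀ : ℝ} {H W : ℝ × E d → ℝ}
    (hP : Prof d r C₀ H W) (z : E d) (s t : ℝ) (hs : 0 < s) (hst : s ≤ t) :
    W (t, z) ≤ W (s, z) * (t / s) ^ (3 / 2 : ℝ) ∧ W (s, z) ≤ W (t, z) * (t / s) ^ (3 / 2 : ℝ) := by
  have hopen : IsOpen {p : ℝ × E d | 0 < p.1} := isOpen_lt continuous_const continuous_fst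
  have hder : ∀ s : ℝ, 0 < s → HasDerivAt (fun s : ℝ => W (s, z)) (fderiv ℝ W (s, z) (1, 0)) s := by
    intro s hs
    have h1 : DifferentiableAt ℝ W (s, z) :=
      (hP.W_C1.differentiableOn (by norm_num)).differentiableAt (hopen.mem_nhds hs)
    have h2 : HasDerivAt (fun s : ℝ => (s, z)) ((1 : ℝ), (0 : E d)) s :=
      (hasDerivAt_id s).prodMk (hasDerivAt_const s z)
    exact h1.hasFDerivAt.comp_hasDerivAt s h2
  refine hGRW (fun s => W (s, z)) (fun s hs => hP.W_pos (s, z) hs)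
    (fun s hs => (hder s hs).differentiableAt) (fun s hs => ?_) s t hs hst
  rw [(hder s hs).deriv]
  exact hP.p1 (s, z) hs

/-- PRW -/
theorem pf_PRW (hROT : T_ROT) (hCV1 : T_CV1) (hCV2 : T_CV2) (hGRW : T_GRW) : T_PRW := by
  intro d r C₀ H W hr hr0 hP
  -- the size `h`
  obtain ⟨h, hh0, hh1, hhr⟩ : ∃ h : ℝ, 0 < h ∧ h ≤ 1 ∧ ∀ z : E d, ‖z‖ ≤ 2 → h ≤ r z := by
    obtain ⟨z0, -, hz0⟩ := (isCompact_closedBall (0 : E d) 2).exists_isMinOn
      (nonempty_closedBall.2 (by norm_num)) hr.continuousOn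
    refine ⟨min 1 (r z0), lt_min one_pos (hr0 z0), min_le_left _ _, fun z hz => ?_⟩
    exact (min_le_right _ _).trans (hz0 (mem_closedBall_zero_iff.2 hz))
  obtain ⟨c1, c2⟩ := hCV1 d H h hh0 hP.H_C1
  obtain ⟨v1, v2⟩ := hCV2 d W hP.W_C1
  have hR := hROT d
  set rt : E (d + 2) → ℝ := fun x => Real.sqrt (rho x ^ 2 + h ^ 2) with hrt
  have rt_sq : ∀ x, rt x ^ 2 = rho x ^ 2 + h ^ 2 := fun x => Real.sq_sqrt (by positivity)
  have rt_pos : ∀ x, 0 < rt x := fun x => Real.sqrt_pos.2 (by positivity)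
  have rho_rt : ∀ x, rho x ≤ rt x := fun x => by
    refine (sq_le_sq₀ (rho_nonneg x) (rt_pos x).le).1 ?_
    rw [rt_sq]
    nlinarith [sq_nonneg h]
  have rt_le : ∀ x ∈ ball (0 : E (d + 2)) 2, rt x ≤ 3 := fun x hx => by
    refine (sq_le_sq₀ (rt_pos x).le (by norm_num)).1 ?_
    rw [rt_sq]
    have := rho_le hx
    nlinarith [rho_nonneg x]
  have hkap : ∀ x, kap (fun x : E (d + 2) => H (rt x, zp x)) x =
      rho x ^ 2 / rt x ^ 2 * W (rt x, zp x) := by
    intro x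
    have h0 : Real.sqrt (rho x ^ 2 + h ^ 2) = rt x := rfl
    rw [(c2 x).1, hP.W_eq (rt x, zp x) (rt_pos x), h0]
    have := (rt_pos x).ne'
    simp only
    field_simp
  have hq1 : ∀ x, rho x ^ 2 / rt x ^ 2 ≤ 1 := fun x => by
    rw [div_le_one (by have := rt_pos x; positivity)]
    exact pow_le_pow_left₀ (rho_nonneg x) (rho_rt x) 2
  have hkap0 : ∀ x, 0 ≤ kap (fun x : E (d + 2) => H (rt x, zp x)) x := fun x => by
    rw [hkap]
    exact mul_nonneg (by positivity) (hP.W_pos (rt x, zp x) (rt_pos x)).le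
  -- `q = rt / rho`
  have hpow : ∀ x, 0 < rho x → (rt x / rho x) ^ (3 / 2 : ℝ) ≤ (rt x / rho x) ^ 2 := by
    intro x hx
    have h1 : 1 ≤ rt x / rho x := by
      rw [le_div_iff₀ hx, one_mul]
      exact rho_rt x
    have h2 := Real.rpow_le_rpow_of_exponent_le h1 (by norm_num : (3 / 2 : ℝ) ≤ ((2 : ℕ) : ℝ))
    rwa [Real.rpow_natCast] at h2
  have hP5a : ∀ x, 0 < rho x → kap (fun x : E (d + 2) => H (rt x, zp x)) x ≤ W (rho x, zp x) := by
    intro x hx
    have h1 := (growth hGRW hP (zp x) (rho x) (rt x) hx (rho_rt x)).1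
    have h2 : W (rt x, zp x) ≤ W (rho x, zp x) * (rt x / rho x) ^ 2 :=
      h1.trans (mul_le_mul_of_nonneg_left (hpow x hx) (hP.W_pos (rho x, zp x) hx).le)
    rw [hkap]
    calc rho x ^ 2 / rt x ^ 2 * W (rt x, zp x)
        ≤ rho x ^ 2 / rt x ^ 2 * (W (rho x, zp x) * (rt x / rho x) ^ 2) :=
          mul_le_mul_of_nonneg_left h2 (by positivity)
      _ = W (rho x, zp x) := by
          have h3 := (rt_pos x).ne'
          have h4 := hx.ne'
          field_simp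
  have hC0 : 0 ≤ C₀ := by
    have h1 := hP.p5 (1, 0) (by norm_num) (by norm_num)
    have h2 := hP.H_pos (1, 0) (by norm_num)
    simp only [one_mul] at h1
    linarith
  refine ⟨fun x => H (rt x, zp x), ?_⟩
  constructor
  · exact c1
  · intro x _
    exact (hP.H_pos (rt x, zp x) (rt_pos x)).le
  · intro θ x
    simp only [hrt, hR.rho, hR.zp]
  · exact v1
  · intro x hx
    exact hP.W_pos (rho x, zp x) hx
  · intro θ x
    simp only [hR.rho, hR.zp]
  · intro x _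
    exact hkap0 x
  · intro x _
    rw [hkap]
    have h1 := hP.p3 (rt x, zp x) (rt_pos x)
    have h2 := hP.W_pos (rt x, zp x) (rt_pos x)
    have h3 := mul_le_mul_of_nonneg_right (hq1 x) h2.le
    linarith
  · intro x _
    rw [(c2 x).2, hkap]
    have h1 := hP.p4 (rt x, zp x) (rt_pos x)
    have h2 := rt_pos x
    have h3 : (0 : ℝ) ≤ rho x ^ 2 / rt x ^ 2 := by positivity
    have h4 := mul_le_mul_of_nonneg_left h1 h3
    simp only at h4
    have h5 : rho x ^ 2 / rt x ^ 2 * (rt x ^ 2 * ∑ i : Fin d,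
        (fderiv ℝ H (rt x, zp x) (0, bv i)) ^ 2) =
        rho x ^ 2 * ∑ i : Fin d, (fderiv ℝ H (rt x, zp x) (0, bv i)) ^ 2 := by
      field_simp
    rw [h5] at h4
    refine h4.trans (le_of_eq ?_)
    ring
  · intro x hx
    have h1 := hP.p5 (rt x, zp x) (rt_pos x) (rt_le x hx)
    have h2 := hP.H_pos (rt x, zp x) (rt_pos x)
    have h3 := mul_le_mul_of_nonneg_right (rho_rt x) h2.le
    exact h3.trans h1
  · intro x hx hxr
    rcases (rho_nonneg x).eq_or_lt with h0 | h0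
    · rw [hkap, ← h0]
      simpa using hC0
    · exact (hP5a x h0).trans (hP.p7 (rho x, zp x) h0 (rho_le hx) (zp_le hx) hxr)
  · intro x _ hx0
    exact hP5a x hx0
  · intro x hx hxr
    have hx0 : 0 < rho x := lt_of_lt_of_le (hr0 _) hxr
    have h1 := (growth hGRW hP (zp x) (rho x) (rt x) hx0 (rho_rt x)).2
    have h2 : h ≤ rho x := (hhr _ (zp_le hx)).trans hxr
    have h3 : (rt x / rho x) ^ 2 ≤ 2 := by
      rw [div_pow, rt_sq, div_le_iff₀ (by positivity)]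
      nlinarith
    have h4 := hP.W_pos (rt x, zp x) (rt_pos x)
    have h5 : W (rho x, zp x) ≤ W (rt x, zp x) * 2 :=
      h1.trans (mul_le_mul_of_nonneg_left ((hpow x hx0).trans h3) h4.le)
    rw [hkap]
    have h6 : W (rt x, zp x) = (rt x / rho x) ^ 2 *
        (rho x ^ 2 / rt x ^ 2 * W (rt x, zp x)) := by
      have h7 := (rt_pos x).ne'
      have h8 := hx0.ne'
      field_simp
    have h9 : 0 ≤ rho x ^ 2 / rt x ^ 2 * W (rt x, zp x) := by positivity
    have h10 := mul_le_mul_of_nonneg_right h3 h9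
    rw [← h6] at h10
    linarith
  · intro x hx hxr
    have hx0 : 0 < rho x := lt_trans (hr0 _) hxr
    rw [v2 x hx0]
    have h1 := hP.p1 (rho x, zp x) hx0
    have h2 := hP.p2 (rho x, zp x) hx0
    have h3 := hP.W_pos (rho x, zp x) hx0
    simp only at h1 h2 h3
    have h4 : (rho x * fderiv ℝ W (rho x, zp x) (1, 0)) ^ 2 ≤ (3 / 2 * W (rho x, zp x)) ^ 2 := by
      rw [← sq_abs]
      exact pow_le_pow_left₀ (abs_nonneg _) h1 2
    rw [mul_add]
    rw [mul_pow] at h4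
    nlinarith [h4, h2]
  · intro x hx hx0
    exact hP.p6 (rho x, zp x) hx0 (rho_le hx)
  · intro x hx h1 h2
    exact hP.p7 (rho x, zp x) (lt_of_lt_of_le (hr0 _) h1) (rho_le hx) (zp_le hx) h2

end Pool.Agent.H10.SN
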